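import Pool.Agent.H242.GX.Stm4

open Set Filter Topology
open scoped ContDiff

namespace Pool.Agent.H370.GX

open Pool.Agent.H242.GX

theorem exp_half_log_sq (ρ : ℝ) (hρ : ρ ≠ 0) : Real.exp (Real.log (ρ ^ 2) / 2) = |ρ| := by
  have h : Real.log (ρ ^ 2) / 2 = Real.log |ρ| := by
    rw [← sq_abs, Real.log_pow]
    push_cast
    ring
  rw [h, Real.exp_log (abs_pos.mpr hρ)]

theorem exp_half_log (y : ℝ) (hy : 0 < y) : Real.exp (Real.log y / 2) = Real.sqrt y := by
  rw [← Real.log_sqrt hy.le, Real.exp_log (Real.sqrt_pos.mpr hy)]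

theorem exists_small (K C E : ℝ) (hE : 0 < E) :
    ∃ c : ℝ, 0 < c ∧ c * (C + 2 * K * C) < 1 ∧ c * Real.pi < 1 ∧ (C * (c * Real.pi)) ^ 2 < E / 4 := by
  have e1 : ∀ᶠ c in 𝓝 (0 : ℝ), c * (C + 2 * K * C) < 1 := by
    have hc : Continuous (fun c : ℝ => c * (C + 2 * K * C)) := by fun_prop
    apply hc.continuousAt.eventually_lt continuousAt_const
    simp
  have e2 : ∀ᶠ c in 𝓝 (0 : ℝ), c * Real.pi < 1 := by
    have hc : Continuous (fun c : ℝ => c * Real.pi) := by fun_prop
    apply hc.continuousAt.eventually_lt continuousAt_const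
    simp
  have e3 : ∀ᶠ c in 𝓝 (0 : ℝ), (C * (c * Real.pi)) ^ 2 < E / 4 := by
    have hc : Continuous (fun c : ℝ => (C * (c * Real.pi)) ^ 2) := by fun_prop
    apply hc.continuousAt.eventually_lt continuousAt_const
    simpa using hE
  obtain ⟨r, hr, hball⟩ := Metric.eventually_nhds_iff.mp (e1.and (e2.and e3))
  refine ⟨r / 2, by linarith, ?_⟩
  exact hball (by rw [Real.dist_eq, sub_zero, abs_of_pos (by linarith)]; linarith)

theorem gx_CORR2K (hLM : S_LM) (hCUTK : S_CUTK) (hFLATMULK : S_FLATMULK) (hFLATEXT : S_FLATEXT)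
    (hXB : S_XB) : S_CORR2K := by
  intro X Z hW K lam s₁ g hK hlam hs₁ hg1 hg2
  obtain ⟨χ, hχs, hχ0, hχ1, hχb⟩ := hCUTK K hK
  obtain ⟨hL1, hL2, hL3⟩ := hLM X Z lam hW hlam
  obtain ⟨w₀, hw₀, hf1, hf2⟩ := hFLATMULK K χ g (Lm Z lam) (2 * Real.pi + 1) s₁ hK (by linarith)
    hχs hχ0 hχb hg1 hg2 hL1 hL2 hL3
  have hF := hFLATEXT (fun x => χ x * g (Lm Z lam x)) w₀ hf1 hf2
  set F : ℝ × ℝ → ℝ := fun x : ℝ × ℝ => if 0 < x.2 then
    (fun x => χ x * g (Lm Z lam x)) (x.1, Real.log x.2 / 2) else 0 with hFdef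
  set E : ℝ := Real.exp (2 * w₀) with hE
  have hE0 : 0 < E := Real.exp_pos _
  set b : ℝ → ℝ := fun y => Real.smoothTransition (2 - 4 * y / E) with hb
  have hbs : ContDiff ℝ ∞ b := by
    rw [hb]
    exact Real.smoothTransition.contDiff.comp (by fun_prop)
  have hb1 : ∀ y, y ≤ E / 4 → b y = 1 := by
    intro y hy
    rw [hb]
    apply Real.smoothTransition.one_of_one_le
    have : 4 * y / E ≤ 1 := by
      rw [div_le_iff₀ hE0]
      linarith
    linarith
  have hb0 : ∀ y, E / 2 ≤ y → b y = 0 := by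
    intro y hy
    rw [hb]
    apply Real.smoothTransition.zero_of_nonpos
    have : 2 ≤ 4 * y / E := by
      rw [le_div_iff₀ hE0]
      linarith
    linarith
  have hFpos : ∀ φ y : ℝ, 0 < y → F (φ, y) = χ (φ, Real.log y / 2) * g (Lm Z lam (φ, Real.log y / 2)) := by
    intro φ y hy
    rw [hFdef]
    simp only [hy, if_true]
  have hFneg : ∀ φ y : ℝ, y ≤ 0 → F (φ, y) = 0 := by
    intro φ y hy
    rw [hFdef]
    simp only [not_lt.mpr hy, if_false]
  refine ⟨fun x => b x.2 * F x, ?_, ?_, ?_, ?_⟩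
  · rw [contDiff_iff_contDiffAt]
    intro x
    by_cases hx : x.2 < E
    · have hopen : IsOpen {x : ℝ × ℝ | x.2 < E} := isOpen_lt continuous_snd continuous_const
      have h1 : ContDiffAt ℝ ∞ F x := hF.contDiffAt (hopen.mem_nhds hx)
      have h2 : ContDiffAt ℝ ∞ (fun x : ℝ × ℝ => b x.2) x :=
        (hbs.comp contDiff_snd).contDiffAt
      exact h2.mul h1
    · have hopen : IsOpen {x : ℝ × ℝ | E / 2 < x.2} := isOpen_lt continuous_const continuous_snd
      have hmem : x ∈ {x : ℝ × ℝ | E / 2 < x.2} := by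
        show E / 2 < x.2
        push Not at hx
        linarith
      have h1 : (fun x : ℝ × ℝ => b x.2 * F x) =ᶠ[𝓝 x] fun _ => (0 : ℝ) := by
        filter_upwards [hopen.mem_nhds hmem] with z hz
        rw [hb0 z.2 (le_of_lt hz), zero_mul]
      exact contDiffAt_const.congr_of_eventuallyEq h1
  · intro φ y h
    simp only
    by_cases hy : 0 < y
    · rw [hFpos φ y hy, hχ0 (φ, Real.log y / 2), zero_mul, mul_zero]
      have hpos : 0 < K * Real.exp (Real.log y / 2) := mul_pos hK (Real.exp_pos _)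
      rcases h with h | h | h
      · exact absurd hy (not_lt.mpr h)
      · left
        exact h.trans hpos.le
      · right
        simp only
        linarith
    · rw [hFneg φ y (not_lt.mp hy), mul_zero]
  · intro φ y hy h
    simp only
    rw [hFpos φ y hy, hχ0 (φ, Real.log y / 2), zero_mul, mul_zero]
    simp only
    rw [exp_half_log y hy]
    exact h
  · obtain ⟨⟨C, hC, hXC⟩, -⟩ := hXB X Z hW
    obtain ⟨c, hc, hc1, hc2, hc3⟩ := exists_small K C E hE0
    -- the key evaluation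
    have key : ∀ φ ρ : ℝ, ρ ≠ 0 → ρ ^ 2 < E / 4 → 2 * K * |ρ| < φ →
        2 * K * |ρ| < 2 * Real.pi - φ →
        b (ρ ^ 2) * F (φ, ρ ^ 2) = g ((Z (φ, |ρ|)).1, Real.log ((Z (φ, |ρ|)).2 / lam)) := by
      intro φ ρ hρ h1 h2 h3
      have hρ2 : 0 < ρ ^ 2 := by positivity
      rw [hb1 _ h1.le, one_mul, hFpos φ _ hρ2, hχ1 (φ, Real.log (ρ ^ 2) / 2), one_mul]
      · unfold Lm
        simp only
        rw [exp_half_log_sq ρ hρ]
      · simp only
        rw [exp_half_log_sq ρ hρ]
        exact h2.le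
      · simp only
        rw [exp_half_log_sq ρ hρ]
        exact h3.le
    -- uniform estimates
    have est : ∀ θ t s : ℝ, 0 < t → t < c * θ → t < c * (2 * Real.pi - θ) → |s| = t →
        (X (θ, s)).2 ^ 2 < E / 4 ∧ 2 * K * |(X (θ, s)).2| < (X (θ, s)).1 ∧
          2 * K * |(X (θ, s)).2| < 2 * Real.pi - (X (θ, s)).1 := by
      intro θ t s ht h1 h2 hs
      have hpi := Real.pi_pos
      have ht' : t < c * Real.pi := by nlinarith
      have ht1 : t ≤ 1 := by linarith
      obtain ⟨b1, b2⟩ := hXC θ s (by rw [hs]; exact ht1)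
      rw [hs] at b1 b2
      have hb1' := abs_le.mp b1
      refine ⟨?_, ?_, ?_⟩
      · rw [← sq_abs]
        have h5 : |(X (θ, s)).2| ≤ C * (c * Real.pi) := b2.trans (mul_le_mul_of_nonneg_left ht'.le hC.le)
        have h6 := pow_le_pow_left₀ (abs_nonneg _) h5 2
        linarith
      · have h7 : 2 * K * |(X (θ, s)).2| ≤ 2 * K * (C * t) :=
          mul_le_mul_of_nonneg_left b2 (by positivity)
        have hθ : 0 < θ := by
          by_contra hcon
          push Not at hcon
          nlinarith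
        have h8 : t * (C + 2 * K * C) < θ := by
          have hCK : 0 < C + 2 * K * C := by positivity
          calc t * (C + 2 * K * C) < (c * θ) * (C + 2 * K * C) := mul_lt_mul_of_pos_right h1 hCK
            _ = θ * (c * (C + 2 * K * C)) := by ring
            _ < θ * 1 := mul_lt_mul_of_pos_left hc1 hθ
            _ = θ := mul_one θ
        nlinarith [hb1'.1]
      · have h7 : 2 * K * |(X (θ, s)).2| ≤ 2 * K * (C * t) :=
          mul_le_mul_of_nonneg_left b2 (by positivity)
        have hθ : 0 < 2 * Real.pi - θ := by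
          by_contra hcon
          push Not at hcon
          nlinarith
        have h8 : t * (C + 2 * K * C) < 2 * Real.pi - θ := by
          have hCK : 0 < C + 2 * K * C := by positivity
          calc t * (C + 2 * K * C) < (c * (2 * Real.pi - θ)) * (C + 2 * K * C) :=
                mul_lt_mul_of_pos_right h2 hCK
            _ = (2 * Real.pi - θ) * (c * (C + 2 * K * C)) := by ring
            _ < (2 * Real.pi - θ) * 1 := mul_lt_mul_of_pos_left hc1 hθ
            _ = 2 * Real.pi - θ := mul_one _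
        nlinarith [hb1'.2]
    refine ⟨c, hc, fun θ t ht0 h1 h2 => ⟨?_, ?_⟩⟩
    · obtain ⟨k1, k2, k3⟩ := est θ t t ht0 h1 h2 (abs_of_pos ht0)
      have hpos := hW.sgn θ t ht0
      have := key (X (θ, t)).1 (X (θ, t)).2 hpos.ne' k1 k2 k3
      simp only
      rw [this, abs_of_pos hpos]
      have h5 : Z ((X (θ, t)).1, (X (θ, t)).2) = (θ, t) := hW.left (θ, t)
      rw [h5]
    · obtain ⟨k1, k2, k3⟩ := est θ t (-t) ht0 h1 h2 (by rw [abs_neg, abs_of_pos ht0])
      have hneg := hW.sgn' θ (-t) (by linarith)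
      have := key (X (θ, -t)).1 (X (θ, -t)).2 hneg.ne k1 k2 k3
      simp only
      rw [this, abs_of_neg hneg]
      rfl

end Pool.Agent.H370.GX
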